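import Mathlib

/-! Fourier transform of the Cauchy kernel, used for the Plancherel type statements of project PM. -/

namespace PM
open MeasureTheory Complex FourierTransform

theorem key_int {σ : ℝ} (hσ : 0 < σ) : Integrable (fun t : ℝ => (σ ^ 2 + t ^ 2)⁻¹) := by
  have h := (integrable_inv_one_add_sq).comp_div (ne_of_gt hσ)
  have h2 := h.const_mul (σ ^ 2)⁻¹
  refine h2.congr (Filter.Eventually.of_forall fun t => ?_)
  simp only
  rw [← mul_inv]
  congr 1
  field_simp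

theorem key_f_int {σ : ℝ} (hσ : 0 < σ) :
    Integrable (fun v : ℝ => (Real.exp (-(σ * |v|)) : ℂ)) := by
  have h1 : IntegrableOn (fun v : ℝ => (Real.exp (-(σ * |v|)) : ℂ)) (Set.Iic 0) := by
    have h := integrableOn_exp_mul_complex_Iic (a := (σ : ℂ)) (by simpa using hσ) 0
    refine h.congr_fun (fun v hv => ?_) measurableSet_Iic
    simp only [Set.mem_Iic] at hv
    simp only [Complex.ofReal_exp]
    rw [abs_of_nonpos hv]
    push_cast
    ring_nf
  have h2 : IntegrableOn (fun v : ℝ => (Real.exp (-(σ * |v|)) : ℂ)) (Set.Ioi 0) := by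
    have h := integrableOn_exp_mul_complex_Ioi (a := -(σ : ℂ)) (by simpa using hσ) 0
    refine h.congr_fun (fun v hv => ?_) measurableSet_Ioi
    simp only [Set.mem_Ioi] at hv
    simp only [Complex.ofReal_exp]
    rw [abs_of_pos hv]
    push_cast
    ring_nf
  have := h1.union h2
  rwa [Set.Iic_union_Ioi, integrableOn_univ] at this

theorem key_F {σ : ℝ} (hσ : 0 < σ) (w : ℝ) :
    𝓕 (fun v : ℝ => (Real.exp (-(σ * |v|)) : ℂ)) w =
      ((2 * σ * (σ ^ 2 + (2 * Real.pi * w) ^ 2)⁻¹ : ℝ) : ℂ) := by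
  rw [Real.fourier_real_eq_integral_exp_smul]
  set a : ℂ := σ - 2 * Real.pi * w * I with ha
  set b : ℂ := -σ - 2 * Real.pi * w * I with hb
  have hare : a.re = σ := by simp [ha]
  have hbre : b.re = -σ := by simp [hb]
  have e1 : ∀ v ∈ Set.Iic (0 : ℝ), Complex.exp (↑(-2 * Real.pi * v * w) * I) •
      (Real.exp (-(σ * |v|)) : ℂ) = Complex.exp (a * v) := by
    intro v hv
    simp only [Set.mem_Iic] at hv
    rw [smul_eq_mul, abs_of_nonpos hv, Complex.ofReal_exp, ← Complex.exp_add]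
    congr 1
    simp only [ha]
    push_cast
    ring
  have e2 : ∀ v ∈ Set.Ioi (0 : ℝ), Complex.exp (↑(-2 * Real.pi * v * w) * I) •
      (Real.exp (-(σ * |v|)) : ℂ) = Complex.exp (b * v) := by
    intro v hv
    simp only [Set.mem_Ioi] at hv
    rw [smul_eq_mul, abs_of_pos hv, Complex.ofReal_exp, ← Complex.exp_add]
    congr 1
    simp only [hb]
    push_cast
    ring
  have i1 : IntegrableOn (fun v : ℝ => Complex.exp (↑(-2 * Real.pi * v * w) * I) •
      (Real.exp (-(σ * |v|)) : ℂ)) (Set.Iic 0) :=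
    (integrableOn_exp_mul_complex_Iic (a := a) (by rw [hare]; exact hσ) 0).congr_fun
      (fun v hv => (e1 v hv).symm) measurableSet_Iic
  have i2 : IntegrableOn (fun v : ℝ => Complex.exp (↑(-2 * Real.pi * v * w) * I) •
      (Real.exp (-(σ * |v|)) : ℂ)) (Set.Ioi 0) :=
    (integrableOn_exp_mul_complex_Ioi (a := b) (by rw [hbre]; linarith) 0).congr_fun
      (fun v hv => (e2 v hv).symm) measurableSet_Ioi
  rw [← intervalIntegral.integral_Iic_add_Ioi i1 i2, setIntegral_congr_fun measurableSet_Iic e1,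
    setIntegral_congr_fun measurableSet_Ioi e2, integral_exp_mul_complex_Iic (by rw [hare]; exact hσ),
    integral_exp_mul_complex_Ioi (by rw [hbre]; linarith)]
  have ha0 : a ≠ 0 := fun h => by rw [h] at hare; simp at hare; linarith
  have hb0 : b ≠ 0 := fun h => by rw [h] at hbre; simp at hbre; linarith
  have hpos : (0 : ℝ) < σ ^ 2 + (2 * Real.pi * w) ^ 2 := by positivity
  have hc0 : ((σ ^ 2 + (2 * Real.pi * w) ^ 2 : ℝ) : ℂ) ≠ 0 := by exact_mod_cast hpos.ne'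
  have hab : a * b = -((σ ^ 2 + (2 * Real.pi * w) ^ 2 : ℝ) : ℂ) := by
    simp only [ha, hb]
    push_cast
    ring_nf
    simp only [I_sq]
    ring
  have hsub : b - a = -(2 * σ) := by simp only [ha, hb]; ring
  simp only [Complex.ofReal_zero, mul_zero, Complex.exp_zero]
  have : (1 : ℂ) / a + -1 / b = (b - a) / (a * b) := by field_simp; ring
  rw [this, hab, hsub]
  push_cast
  push_cast at hc0
  field_simp

/-- Fourier transform of the Cauchy kernel -/
theorem key {σ : ℝ} (hσ : 0 < σ) (x : ℝ) :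
    ∫ t : ℝ, Complex.exp ((t * x : ℝ) * I) * ((σ ^ 2 + t ^ 2)⁻¹ : ℝ) =
      ((Real.pi / σ * Real.exp (-(σ * |x|)) : ℝ) : ℂ) := by
  set f : ℝ → ℂ := fun v : ℝ => (Real.exp (-(σ * |v|)) : ℂ) with hf
  have hfi : Integrable f := key_f_int hσ
  have hfc : Continuous f := by
    simp only [hf]
    fun_prop
  have hFe : 𝓕 f = fun w : ℝ => ((2 * σ * (σ ^ 2 + (2 * Real.pi * w) ^ 2)⁻¹ : ℝ) : ℂ) := by
    ext w
    exact key_F hσ w
  have hFi : Integrable (𝓕 f) := by
    rw [hFe]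
    have h := (key_int hσ).comp_mul_left' (R := 2 * Real.pi) (by positivity)
    exact (h.const_mul (2 * σ)).ofReal
  have hinv := congrFun (hfc.fourierInv_fourier_eq hfi hFi) x
  rw [Real.fourierInv_eq', hFe] at hinv
  have hcv := Measure.integral_comp_mul_left (fun t : ℝ => Complex.exp ((t * x : ℝ) * I) *
    ((σ ^ 2 + t ^ 2)⁻¹ : ℝ)) (2 * Real.pi)
  have heq : ∫ v : ℝ, Complex.exp (↑(2 * Real.pi * inner ℝ v x) * I) •
      ((2 * σ * (σ ^ 2 + (2 * Real.pi * v) ^ 2)⁻¹ : ℝ) : ℂ) =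
      (2 * σ : ℂ) * ∫ v : ℝ, Complex.exp (((2 * Real.pi * v) * x : ℝ) * I) *
        ((σ ^ 2 + (2 * Real.pi * v) ^ 2)⁻¹ : ℝ) := by
    rw [← integral_const_mul]
    congr 1
    ext v
    simp only [smul_eq_mul]
    have : inner ℝ v x = v * x := by simp [mul_comm]
    rw [this, show 2 * Real.pi * (v * x) = 2 * Real.pi * v * x by ring]
    push_cast
    ring
  rw [heq] at hinv
  rw [hcv] at hinv
  have hpi : (0 : ℝ) < 2 * Real.pi := by positivity
  rw [abs_of_pos (inv_pos.mpr hpi)] at hinv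
  have hσ' : (σ : ℂ) ≠ 0 := by exact_mod_cast hσ.ne'
  have hpi' : (Real.pi : ℂ) ≠ 0 := by exact_mod_cast Real.pi_ne_zero
  simp only [hf, Complex.real_smul] at hinv
  generalize (∫ y : ℝ, Complex.exp ((y * x : ℝ) * I) * ((σ ^ 2 + y ^ 2)⁻¹ : ℝ)) = J at hinv ⊢
  push_cast at hinv ⊢
  rw [← hinv]
  field_simp

/-- Gram expansion of a weighted mean square -/
theorem gram {α : Type*} [MeasurableSpace α] (μ : Measure α) (S : Finset ℕ) (c : ℕ → ℂ)
    (f : ℕ → α → ℂ) (w : α → ℝ) (K : ℕ → ℕ → ℂ)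
    (hint : ∀ n ∈ S, ∀ m ∈ S, Integrable (fun x => f n x * (starRingEnd ℂ) (f m x) * (w x : ℂ)) μ)
    (hK : ∀ n ∈ S, ∀ m ∈ S, ∫ x, f n x * (starRingEnd ℂ) (f m x) * (w x : ℂ) ∂μ = K n m) :
    ((∫ x, ‖∑ n ∈ S, c n * f n x‖ ^ 2 * w x ∂μ : ℝ) : ℂ) =
      ∑ n ∈ S, ∑ m ∈ S, c n * (starRingEnd ℂ) (c m) * K n m := by
  rw [← integral_complex_ofReal]
  have h1 : ∀ x, ((‖∑ n ∈ S, c n * f n x‖ ^ 2 * w x : ℝ) : ℂ) =
      ∑ n ∈ S, ∑ m ∈ S, c n * (starRingEnd ℂ) (c m) *
        (f n x * (starRingEnd ℂ) (f m x) * (w x : ℂ)) := by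
    intro x
    push_cast
    rw [← Complex.mul_conj', map_sum, Finset.sum_mul_sum, Finset.sum_mul]
    refine Finset.sum_congr rfl fun n _ => ?_
    rw [Finset.sum_mul]
    refine Finset.sum_congr rfl fun m _ => ?_
    rw [map_mul]
    ring
  simp_rw [h1]
  rw [integral_finsetSum _ (fun n hn => integrable_finsetSum _ fun m hm =>
    (hint n hn m hm).const_mul _)]
  refine Finset.sum_congr rfl fun n hn => ?_
  rw [integral_finsetSum _ (fun m hm => (hint n hn m hm).const_mul _)]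
  refine Finset.sum_congr rfl fun m hm => ?_
  rw [integral_const_mul, hK n hn m hm]

theorem cpow_eq {n : ℕ} (hn : n ≠ 0) (s t : ℝ) :
    (n : ℂ) ^ (-(s + t * I) : ℂ) =
      ((Real.exp (-(s * Real.log n)) : ℝ) : ℂ) * Complex.exp ((-(t * Real.log n) : ℝ) * I) := by
  have hn' : (n : ℂ) ≠ 0 := by exact_mod_cast hn
  rw [Complex.cpow_def_of_ne_zero hn', ← Complex.natCast_log, Complex.ofReal_exp, ← Complex.exp_add]
  congr 1
  push_cast
  ring

theorem kern_eq {n m : ℕ} (hn : n ≠ 0) (hm : m ≠ 0) (s σ t : ℝ) :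
    (n : ℂ) ^ (-(s + t * I) : ℂ) * (starRingEnd ℂ) ((m : ℂ) ^ (-(s + t * I) : ℂ)) *
      (((σ ^ 2 + t ^ 2)⁻¹ : ℝ) : ℂ) =
    ((Real.exp (-(s * (Real.log n + Real.log m))) : ℝ) : ℂ) *
      (Complex.exp ((t * (Real.log m - Real.log n) : ℝ) * I) * ((σ ^ 2 + t ^ 2)⁻¹ : ℝ)) := by
  rw [cpow_eq hn, cpow_eq hm, map_mul, Complex.conj_ofReal, ← Complex.exp_conj, map_mul,
    Complex.conj_ofReal, Complex.conj_I]
  have e1 : Real.exp (-(s * (Real.log n + Real.log m))) =
      Real.exp (-(s * Real.log n)) * Real.exp (-(s * Real.log m)) := by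
    rw [← Real.exp_add]; congr 1; ring
  have e2 : Complex.exp ((t * (Real.log m - Real.log n) : ℝ) * I) =
      Complex.exp ((-(t * Real.log n) : ℝ) * I) * Complex.exp ((-(t * Real.log m) : ℝ) * -I) := by
    rw [← Complex.exp_add]; congr 1; push_cast; ring
  rw [e1, e2]
  push_cast
  ring

theorem kern_integrable {n m : ℕ} (hn : n ≠ 0) (hm : m ≠ 0) (s : ℝ) {σ : ℝ} (hσ : 0 < σ) :
    Integrable (fun t : ℝ => (n : ℂ) ^ (-(s + t * I) : ℂ) *
      (starRingEnd ℂ) ((m : ℂ) ^ (-(s + t * I) : ℂ)) * (((σ ^ 2 + t ^ 2)⁻¹ : ℝ) : ℂ)) := by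
  simp_rw [kern_eq hn hm]
  refine Integrable.const_mul ?_ _
  refine (key_int hσ).ofReal.bdd_mul (c := 1) ?_ ?_
  · apply Continuous.aestronglyMeasurable
    fun_prop
  · refine Filter.Eventually.of_forall fun t => ?_
    rw [Complex.norm_exp_ofReal_mul_I]

theorem kern_integral {n m : ℕ} (hn : n ≠ 0) (hm : m ≠ 0) (s : ℝ) {σ : ℝ} (hσ : 0 < σ) :
    ∫ t : ℝ, (n : ℂ) ^ (-(s + t * I) : ℂ) *
      (starRingEnd ℂ) ((m : ℂ) ^ (-(s + t * I) : ℂ)) * (((σ ^ 2 + t ^ 2)⁻¹ : ℝ) : ℂ) =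
    ((Real.exp (-(s * (Real.log n + Real.log m))) *
      (Real.pi / σ * Real.exp (-(σ * |Real.log m - Real.log n|))) : ℝ) : ℂ) := by
  simp_rw [kern_eq hn hm]
  rw [integral_const_mul, key hσ]
  push_cast
  ring

/-- convergence of the mean squares of the partial sums -/
theorem rhs_tendsto (c : ℕ → ℂ) (s : ℝ) {σ : ℝ} (hσ : 0 < σ) (h0 : c 0 = 0)
    (hs : Summable (fun n : ℕ => ‖c n‖ * (n : ℝ) ^ (-s))) :
    Filter.Tendsto (fun N : ℕ => ∫ t : ℝ,
      ‖∑ n ∈ Finset.Icc 1 N, c n * (n : ℂ) ^ (-(s + t * I) : ℂ)‖ ^ 2 * (σ ^ 2 + t ^ 2)⁻¹)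
      Filter.atTop (nhds (∫ t : ℝ,
        ‖∑' n : ℕ, c n * (n : ℂ) ^ (-(s + t * I) : ℂ)‖ ^ 2 * (σ ^ 2 + t ^ 2)⁻¹)) := by
  have hnorm : ∀ (t : ℝ) (n : ℕ), ‖c n * (n : ℂ) ^ (-(s + t * I) : ℂ)‖ ≤ ‖c n‖ * (n : ℝ) ^ (-s) := by
    intro t n
    rcases Nat.eq_zero_or_pos n with rfl | hn
    · simp [h0]
    · rw [norm_mul, Complex.norm_natCast_cpow_of_pos hn]
      simp
  set C : ℝ := ∑' n : ℕ, ‖c n‖ * (n : ℝ) ^ (-s) with hC
  have hfin : ∀ (N : ℕ) (t : ℝ), ‖∑ n ∈ Finset.Icc 1 N, c n * (n : ℂ) ^ (-(s + t * I) : ℂ)‖ ≤ C := by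
    intro N t
    refine (norm_sum_le _ _).trans ((Finset.sum_le_sum fun n _ => hnorm t n).trans ?_)
    exact hs.sum_le_tsum _ (fun n _ => by positivity)
  have hcont : ∀ n : ℕ, n ∈ Finset.Icc 1 0 ∨ n ≠ 0 →
      Continuous (fun t : ℝ => (n : ℂ) ^ (-(s + t * I) : ℂ)) := by
    intro n hn
    have hn0 : n ≠ 0 := by
      rcases hn with h | h
      · simp at h
      · exact h
    simp_rw [cpow_eq hn0]
    fun_prop
  refine tendsto_integral_of_dominated_convergence (fun t => C ^ 2 * (σ ^ 2 + t ^ 2)⁻¹) ?_ ?_ ?_ ?_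
  · intro N
    apply Continuous.aestronglyMeasurable
    refine Continuous.mul ?_ ?_
    · refine (Continuous.norm ?_).pow 2
      refine continuous_finsetSum _ fun n hn => continuous_const.mul (hcont n (Or.inr ?_))
      simp only [Finset.mem_Icc] at hn
      omega
    · refine Continuous.inv₀ (by fun_prop) fun t => ?_
      positivity
  · exact (key_int hσ).const_mul _
  · intro N
    refine Filter.Eventually.of_forall fun t => ?_
    rw [Real.norm_of_nonneg (by positivity)]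
    have := hfin N t
    gcongr
  · refine Filter.Eventually.of_forall fun t => ?_
    refine Filter.Tendsto.mul_const _ ((Filter.Tendsto.norm ?_).pow 2)
    have hsum : Summable (fun n : ℕ => c n * (n : ℂ) ^ (-(s + t * I) : ℂ)) :=
      Summable.of_norm_bounded hs (hnorm t)
    have ht := hsum.hasSum.tendsto_sum_nat
    have ht2 := ht.comp (Filter.tendsto_add_atTop_nat 1)
    refine ht2.congr fun N => ?_
    simp only [Function.comp]
    symm
    refine Finset.sum_subset ?_ ?_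
    · intro n hn
      simp only [Finset.mem_Icc, Finset.mem_range] at hn ⊢
      omega
    · intro n hn hn2
      simp only [Finset.mem_Icc, Finset.mem_range] at hn hn2
      have : n = 0 := by omega
      subst this
      simp [h0]

end PM
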